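import Mathlib
import Pool.Agent.Lib_helper15.PENT.TBox

/-! Block S7 (project PENT, part T) -/

set_option autoImplicit false

namespace Pool.Agent.PENT

open Finset

/-- one coordinate -/
theorem s7_one {x L e ep : ℝ} (hx : 0 < x) (hL : L = Real.log x) (he : 0 < e) (hep : 0 < ep)
    (hbig : 2000 / ep ≤ L) (i : ℕ)
    (h1 : ⌈e * L / Real.log 2⌉₊ ≤ i) (h2 : i < ⌈e * L / Real.log 2⌉₊ + ⌊ep * L / 100⌋₊) :
    x ^ e ≤ (2 : ℝ) ^ i ∧ 20 * (2 : ℝ) ^ i ≤ x ^ (e + ep / 50) := by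
  have hlog2 : 0 < Real.log 2 := Real.log_pos (by norm_num)
  have hlog2' : Real.log 2 ≤ 1 := by
    have := Real.log_two_lt_d9
    linarith
  have hL0 : 0 < L := lt_of_lt_of_le (by positivity) hbig
  have hepL : 2000 ≤ ep * L := by
    rw [div_le_iff₀ hep] at hbig
    linarith
  have hlog20 : Real.log 20 ≤ 19 := by
    have := Real.log_le_sub_one_of_pos (x := 20) (by norm_num)
    linarith
  have hxe : ∀ y : ℝ, x ^ y = Real.exp (y * L) := by
    intro y
    rw [Real.rpow_def_of_pos hx, hL, mul_comm]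
  have h2e : (2 : ℝ) ^ i = Real.exp (i * Real.log 2) := by
    rw [← Real.log_pow, Real.exp_log (by positivity)]
  constructor
  · rw [hxe, h2e]
    apply Real.exp_le_exp.2
    have h3 : e * L / Real.log 2 ≤ i := le_trans (Nat.le_ceil _) (by exact_mod_cast h1)
    rwa [div_le_iff₀ hlog2] at h3
  · have h20 : (20 : ℝ) = Real.exp (Real.log 20) := by
      rw [Real.exp_log (by norm_num)]
    rw [hxe, h2e]
    nth_rewrite 1 [h20]
    rw [← Real.exp_add]
    apply Real.exp_le_exp.2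
    have hnn : 0 ≤ e * L / Real.log 2 := by positivity
    have h4 : (⌈e * L / Real.log 2⌉₊ : ℝ) < e * L / Real.log 2 + 1 := Nat.ceil_lt_add_one hnn
    have h5 : (⌊ep * L / 100⌋₊ : ℝ) ≤ ep * L / 100 := Nat.floor_le (by positivity)
    have h6 : (i : ℝ) + 1 ≤ (⌈e * L / Real.log 2⌉₊ : ℝ) + (⌊ep * L / 100⌋₊ : ℝ) := by
      exact_mod_cast h2
    have h7 : (i : ℝ) ≤ e * L / Real.log 2 + ep * L / 100 := by linarith
    have h8 : (i : ℝ) * Real.log 2 ≤ (e * L / Real.log 2 + ep * L / 100) * Real.log 2 :=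
      mul_le_mul_of_nonneg_right h7 hlog2.le
    have h9 : (e * L / Real.log 2 + ep * L / 100) * Real.log 2 =
        e * L + ep * L / 100 * Real.log 2 := by field_simp
    have h10 : ep * L / 100 * Real.log 2 ≤ ep * L / 100 :=
      mul_le_of_le_one_right (by positivity) hlog2'
    have h11 : (e + ep / 50) * L = e * L + ep * L / 50 := by ring
    rw [h11]
    rw [h9] at h8
    linarith

theorem win_card_pr {ρ : ℝ} {p : Par} (hg : Geo ρ p) : ∃ c : ℝ, 0 < c ∧ ∃ X₀ : ℕ, ∀ X ≥ X₀,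
    ∃ I : Finset (Fin 5 → ℕ), (∀ i ∈ I, Win p X (fun j => 2 ^ i j)) ∧
      c * Real.log X ^ 5 ≤ I.card := by
  have hep := hg.ep0
  have he : ∀ j, 0 < p.e j := fun j => lt_of_lt_of_le (by positivity) (hg.e4 j)
  have ht : Filter.Tendsto (fun n : ℕ => Real.log (n : ℝ)) Filter.atTop Filter.atTop :=
    Real.tendsto_log_atTop.comp tendsto_natCast_atTop_atTop
  obtain ⟨X₀, hX₀⟩ := Filter.eventually_atTop.1 (ht.eventually_ge_atTop (2000 / p.ep))
  refine ⟨(p.ep / 200) ^ 5, by positivity, X₀ + 1, fun X hX => ?_⟩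
  have hXX : X₀ ≤ X := by omega
  have hXpos : (0 : ℝ) < X := by
    have : 0 < X := by omega
    exact_mod_cast this
  obtain ⟨L, hL⟩ : ∃ L : ℝ, L = Real.log X := ⟨_, rfl⟩
  have hbig : 2000 / p.ep ≤ L := by rw [hL]; exact hX₀ X hXX
  have hL0 : 0 < L := lt_of_lt_of_le (by positivity) hbig
  have hepL : 2000 ≤ p.ep * L := by
    rw [div_le_iff₀ hep] at hbig
    linarith
  refine ⟨Fintype.piFinset (fun j : Fin 5 => Ico ⌈p.e j * L / Real.log 2⌉₊
    (⌈p.e j * L / Real.log 2⌉₊ + ⌊p.ep * L / 100⌋₊)), ?_, ?_⟩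
  · intro i hi j
    have h1 := mem_Ico.1 (Fintype.mem_piFinset.1 hi j)
    exact s7_one hXpos hL (he j) hep hbig (i j) h1.1 h1.2
  · rw [Fintype.card_piFinset]
    simp only [Nat.card_Ico, Nat.add_sub_cancel_left]
    rw [Finset.prod_const]
    have hc5 : (univ : Finset (Fin 5)).card = 5 := by simp
    rw [hc5, ← hL]
    push_cast
    rw [← mul_pow]
    apply pow_le_pow_left₀ (by positivity)
    have h3 : p.ep * L / 100 < (⌊p.ep * L / 100⌋₊ : ℝ) + 1 := Nat.lt_floor_add_one _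
    have h4 : p.ep / 200 * L = p.ep * L / 200 := by ring
    rw [h4]
    linarith

end Pool.Agent.PENT
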